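import Pool.Agent.W345.GK.TF

/-!
The sum over the points of affine space (project GK, part TA9).
-/

set_option autoImplicit false

open Polynomial Finset

namespace Pool.Agent.W74.GK

open Pool.Agent.W345.GK

lemma sum_pow_eq (k : Type) [Field k] [Fintype k] (a : ℕ) :
    ∑ x : k, x ^ a = if 0 < a ∧ (Fintype.card k - 1) ∣ a then -1 else 0 := by
  classical
  rcases Nat.eq_zero_or_pos a with rfl | ha
  · rw [if_neg (by simp)]
    simp
  · have h1 := FiniteField.sum_pow_units k a
    have h2 : ∑ x : k, x ^ a = ∑ x : kˣ, ((x : k) ^ a) := by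
      have e0 : ∑ x ∈ univ.erase (0 : k), x ^ a = ∑ x : k, x ^ a :=
        Finset.sum_erase univ (f := fun x : k => x ^ a) (zero_pow ha.ne')
      rw [← e0]
      symm
      refine Finset.sum_bij (fun (u : kˣ) _ => (u : k)) ?_ ?_ ?_ (fun _ _ => rfl)
      · intro u _
        exact Finset.mem_erase.2 ⟨u.ne_zero, Finset.mem_univ _⟩
      · intro u _ v _ h
        exact Units.ext h
      · intro b hb
        exact ⟨Units.mk0 b (Finset.mem_erase.1 hb).1, Finset.mem_univ _, rfl⟩
    rw [h2]
    have h3 : ∑ x : kˣ, ((x : k) ^ a) = if (Fintype.card k - 1) ∣ a then -1 else 0 := by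
      exact_mod_cast h1
    rw [h3]
    simp [ha]

lemma sum_mon (k : Type) [Field k] [Fintype k] (n : ℕ) (s : Fin n → ℕ) :
    ∑ c : Fin n → k, ∏ i, c i ^ s i =
      if ∀ i, 0 < s i ∧ (Fintype.card k - 1) ∣ s i then (-1) ^ n else 0 := by
  classical
  have h1 : ∑ c : Fin n → k, ∏ i, c i ^ s i = ∏ i : Fin n, ∑ x : k, x ^ s i := by
    rw [Finset.prod_univ_sum, Fintype.piFinset_univ]
  rw [h1]
  simp only [sum_pow_eq]
  by_cases h : ∀ i, 0 < s i ∧ (Fintype.card k - 1) ∣ s i
  · rw [if_pos h, Finset.prod_congr rfl (fun i _ => if_pos (h i)), Finset.prod_const,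
      Finset.card_univ, Fintype.card_fin]
  · rw [if_neg h]
    push Not at h
    obtain ⟨i, hi⟩ := h
    refine Finset.prod_eq_zero (Finset.mem_univ i) (if_neg ?_)
    rintro ⟨h1, h2⟩
    exact hi h1 h2

lemma mem_Bt {n M : ℕ} (β : Fin n →₀ ℕ) : β ∈ Bt n M ↔ (∑ i, β i) + n ≤ M + 1 := by
  unfold Bt
  rw [Finset.mem_filter, Finset.mem_biUnion]
  constructor
  · exact fun h => h.2
  · intro h
    refine ⟨⟨∑ i, β i, ?_, ?_⟩, h⟩
    · rw [Finset.mem_range]; omega
    · rw [Finset.mem_finsuppAntidiag]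
      exact ⟨rfl, Finset.subset_univ _⟩

theorem ta9 : S_TA9 := by
  classical
  intro k L _ _ _ _ M n g hg
  have hq : 1 < Fintype.card k := Fintype.one_lt_card
  set Q := Fintype.card k - 1 with hQ
  have hQ0 : 0 < Q := by omega
  set u : (Fin n →₀ ℕ) → (Fin n →₀ ℕ) := fun β =>
    Finsupp.equivFunOnFinite.symm fun i => Q * (β i + 1) with hu
  have hui : Function.Injective u := by
    intro β β' h
    ext i
    have h1 := DFunLike.congr_fun h i
    have h2 : Q * (β i + 1) = Q * (β' i + 1) := h1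
    have := Nat.eq_of_mul_eq_mul_left hQ0 h2
    omega
  have e1 : ∑ c : Fin n → k, MvPolynomial.eval (fun i => algebraMap k L (c i)) g =
      ∑ s ∈ g.support, g.coeff s *
        (if ∀ i, 0 < s i ∧ Q ∣ s i then (-1 : L) ^ n else 0) := by
    simp only [MvPolynomial.eval_eq']
    rw [Finset.sum_comm]
    refine Finset.sum_congr rfl fun s _ => ?_
    rw [← Finset.mul_sum]
    congr 1
    have h1 : ∑ c : Fin n → k, ∏ i, algebraMap k L (c i) ^ s i =
        algebraMap k L (∑ c : Fin n → k, ∏ i, c i ^ s i) := by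
      rw [map_sum]
      refine Finset.sum_congr rfl fun c _ => ?_
      rw [map_prod]
      simp only [map_pow]
    rw [h1, sum_mon]
    split_ifs
    · simp
    · simp
  rw [e1]
  have e2 : ∑ s ∈ g.support, g.coeff s *
        (if ∀ i, 0 < s i ∧ Q ∣ s i then (-1 : L) ^ n else 0) =
      (-1) ^ n * ∑ s ∈ g.support.filter (fun s => ∀ i, 0 < s i ∧ Q ∣ s i), g.coeff s := by
    rw [Finset.sum_filter, Finset.mul_sum]
    refine Finset.sum_congr rfl fun s _ => ?_
    split_ifs
    · ring
    · ring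
  rw [e2]
  congr 1
  have e3 : ∑ β ∈ Bt n M, g.coeff (u β) = ∑ s ∈ (Bt n M).image u, g.coeff s :=
    (Finset.sum_image (fun _ _ _ _ h => hui h)).symm
  change _ = ∑ β ∈ Bt n M, g.coeff (u β)
  rw [e3]
  refine Finset.sum_subset ?_ ?_
  · intro s hs
    rw [Finset.mem_filter] at hs
    obtain ⟨hs1, hs2⟩ := hs
    choose t ht using fun i => (hs2 i).2
    have htp : ∀ i, 0 < t i := by
      intro i
      rcases Nat.eq_zero_or_pos (t i) with h0 | h0
      · have := ht i
        rw [h0, mul_zero] at this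
        have := (hs2 i).1
        omega
      · exact h0
    rw [Finset.mem_image]
    refine ⟨Finsupp.equivFunOnFinite.symm fun i => t i - 1, ?_, ?_⟩
    · rw [mem_Bt]
      have h1 := MvPolynomial.le_totalDegree hs1
      rw [Finsupp.sum_fintype _ _ (fun _ => rfl)] at h1
      have h2 : ∑ i, s i = Q * ((∑ i, (t i - 1)) + n) := by
        have h3 : (∑ i, (t i - 1)) + n = ∑ i, t i := by
          have h4 : ∑ i : Fin n, (t i - 1 + 1) = (∑ i, (t i - 1)) + n := by
            rw [Finset.sum_add_distrib, Finset.sum_const, Finset.card_univ, Fintype.card_fin,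
              smul_eq_mul, mul_one]
          rw [← h4]
          refine Finset.sum_congr rfl fun i _ => ?_
          have := htp i
          omega
        rw [h3, Finset.mul_sum]
        exact Finset.sum_congr rfl fun i _ => ht i
      have h5 : Q * ((∑ i, (t i - 1)) + n) ≤ Q * (M + 1) := by
        rw [← h2]; exact h1.trans hg
      exact Nat.le_of_mul_le_mul_left h5 hQ0
    · ext i
      change Q * (t i - 1 + 1) = s i
      rw [ht i, Nat.sub_add_cancel (htp i)]
  · intro s hs1 hs2
    rw [Finset.mem_image] at hs1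
    obtain ⟨β, _, rfl⟩ := hs1
    rw [Finset.mem_filter, not_and] at hs2
    by_contra hne
    refine hs2 (MvPolynomial.mem_support_iff.2 hne) ?_
    intro i
    change 0 < Q * (β i + 1) ∧ Q ∣ Q * (β i + 1)
    exact ⟨Nat.mul_pos hQ0 (Nat.succ_pos _), Dvd.intro _ rfl⟩

end Pool.Agent.W74.GK
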